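import Mathlib

set_option autoImplicit false

/-!
# Symmetric 0/1 matrices with midpoints: an induced `P₄` forces a good one

`M : V → V → Bool` symmetric, the diagonal is the colour (loop).  `PairsOn M D`: every closed pair
of `D` has a midpoint in `D`.  Main theorem `exists_good`.
-/

namespace Pool.Agent.H10.P3

variable {V : Type*}

/-- `a - b - c - d` is an induced path of the graph `M` (distinctness is automatic). -/
def P4 (M : V → V → Bool) (a b c d : V) : Prop :=
  M a b = true ∧ M b c = true ∧ M c d = true ∧ M a c = false ∧ M a d = false ∧ M b d = false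

/-- Every closed pair of `D` has a midpoint in `D`. -/
def PairsOn (M : V → V → Bool) (D : Finset V) : Prop :=
  ∀ u ∈ D, ∀ v ∈ D, ∀ t : Bool, M u u = t → M v v = t → M u v = (!t) →
    ∃ g ∈ D, M g g = (!t) ∧ M g u = (!t) ∧ M g v = (!t) ∧ ∀ y ∈ D, M u y = M v y → M g y = M u y

/-- No induced path on four vertices in `D`. -/
def NoP4 (M : V → V → Bool) (D : Finset V) : Prop :=
  ∀ a ∈ D, ∀ b ∈ D, ∀ c ∈ D, ∀ d ∈ D, ¬ P4 M a b c d

/-- `D` has a root of type `t`: a vertex whose row (with its loop) is constant `t` on `D`. -/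
def Root (M : V → V → Bool) (D : Finset V) (t : Bool) : Prop :=
  ∃ r ∈ D, ∀ x ∈ D, M r x = t

theorem P4.rev {M : V → V → Bool} (hs : ∀ x y, M x y = M y x) {a b c d : V} (h : P4 M a b c d) :
    P4 M d c b a := by
  obtain ⟨h1, h2, h3, h4, h5, h6⟩ := h
  exact ⟨by rw [hs]; exact h3, by rw [hs]; exact h2, by rw [hs]; exact h1, by rw [hs]; exact h6,
    by rw [hs]; exact h5, by rw [hs]; exact h4⟩

/-- The complement matrix. -/
def Co (M : V → V → Bool) : V → V → Bool := fun x y => !(M x y)

theorem P4.co {M : V → V → Bool} (hs : ∀ x y, M x y = M y x) {a b c d : V} (h : P4 M a b c d) :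
    P4 (Co M) b d a c := by
  obtain ⟨h1, h2, h3, h4, h5, h6⟩ := h
  refine ⟨?_, ?_, ?_, ?_, ?_, ?_⟩
  · simp [Co, h6]
  · simp [Co, hs d a, h5]
  · simp [Co, h4]
  · simp [Co, hs b a, h1]
  · simp [Co, h2]
  · simp [Co, hs d c, h3]

theorem P4.of_co {M : V → V → Bool} (hs : ∀ x y, M x y = M y x) {a b c d : V}
    (h : P4 (Co M) a b c d) : P4 M c a d b := by
  obtain ⟨h1, h2, h3, h4, h5, h6⟩ := h
  simp only [Co, Bool.not_eq_true', Bool.not_eq_false'] at h1 h2 h3 h4 h5 h6
  exact ⟨by rw [hs]; exact h4, h5, by rw [hs]; exact h6, h3, by rw [hs]; exact h2, h1⟩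

theorem co_co (M : V → V → Bool) : Co (Co M) = M := by
  funext x y; simp [Co]

section
set_option linter.unusedSectionVars false
variable [DecidableEq V]

theorem pairs_filter {M : V → V → Bool} (hs : ∀ x y, M x y = M y x) {D : Finset V}
    (hP : PairsOn M D) {y : V} (hy : y ∈ D) (t : Bool) :
    PairsOn M (D.filter (fun x => M y x = t)) := by
  intro u hu v hv s h1 h2 h3
  rw [Finset.mem_filter] at hu hv
  obtain ⟨g, hg, g1, g2, g3, g4⟩ := hP u hu.1 v hv.1 s h1 h2 h3
  refine ⟨g, ?_, g1, g2, g3, fun x hx hxx => g4 x (Finset.mem_filter.1 hx).1 hxx⟩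
  rw [Finset.mem_filter]
  refine ⟨hg, ?_⟩
  have : M g y = M u y := g4 y hy (by rw [hs u y, hs v y, hu.2, hv.2])
  rw [hs y g, this, hs u y, hu.2]

/-- A rooted set `D ∩ {M y = t}` has a root of type `t`. -/
theorem stepA {M : V → V → Bool} (hs : ∀ x y, M x y = M y x) {D : Finset V}
    (hP : PairsOn M D) {y : V} (hy : y ∈ D) (t : Bool)
    (h : ∃ s, Root M (D.filter (fun x => M y x = t)) s) :
    Root M (D.filter (fun x => M y x = t)) t := by
  obtain ⟨s, r, hr, hrs⟩ := h
  by_cases hst : s = t
  · subst hst; exact ⟨r, hr, hrs⟩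
  have hst' : s = !t := by
    revert hst; cases s <;> cases t <;> simp
  subst hst'
  by_cases hyy : M y y = t
  · exact ⟨y, Finset.mem_filter.2 ⟨hy, hyy⟩, fun x hx => (Finset.mem_filter.1 hx).2⟩
  have hyy' : M y y = !t := by
    revert hyy; cases M y y <;> cases t <;> simp
  have hr' := Finset.mem_filter.1 hr
  obtain ⟨g, hg, g1, g2, g3, g4⟩ := hP y hy r hr'.1 (!t) hyy' (hrs r hr)
    (by rw [Bool.not_not]; exact hr'.2)
  rw [Bool.not_not] at g1 g2 g3
  have hgf : g ∈ D.filter (fun x => M y x = t) := Finset.mem_filter.2 ⟨hg, by rw [hs]; exact g2⟩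
  have := hrs g hgf
  rw [hs, g3] at this
  revert this; cases t <;> simp

theorem exists_root {M : V → V → Bool} (hs : ∀ x y, M x y = M y x) (D : Finset V) :
    D.Nonempty → PairsOn M D → NoP4 M D → ∃ s, Root M D s := by
  induction D using Finset.strongInduction with
  | H D ih =>
    intro hne hP hN
    have hsub : ∀ y ∈ D, ∀ t, (D.filter (fun x => M y x = t)).Nonempty →
        (D.filter (fun x => M y x = t)) ≠ D → Root M (D.filter (fun x => M y x = t)) t := by
      intro y hy t hn hneq
      have hss : D.filter (fun x => M y x = t) ⊂ D :=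
        Finset.ssubset_iff_subset_ne.2 ⟨Finset.filter_subset _ _, hneq⟩
      exact stepA hs hP hy t (ih _ hss hn (pairs_filter hs hP hy t)
        (fun a ha b hb c hc d hd => hN a (Finset.mem_filter.1 ha).1 b (Finset.mem_filter.1 hb).1
          c (Finset.mem_filter.1 hc).1 d (Finset.mem_filter.1 hd).1))
    obtain ⟨b, hb, hmax⟩ := Finset.exists_max_image D
      (fun y => (D.filter (fun x => M y x = true)).card) hne
    by_cases h1 : D.filter (fun x => M b x = true) = D
    · refine ⟨true, b, hb, fun x hx => ?_⟩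
      rw [← h1] at hx
      exact (Finset.mem_filter.1 hx).2
    by_cases h2 : D.filter (fun x => M b x = true) = ∅
    · refine ⟨false, b, hb, fun x hx => ?_⟩
      by_contra hcon
      have : x ∈ D.filter (fun x => M b x = true) := Finset.mem_filter.2 ⟨hx, by simpa using hcon⟩
      rw [h2] at this
      simp at this
    have h2' : (D.filter (fun x => M b x = true)).Nonempty := Finset.nonempty_iff_ne_empty.2 h2
    obtain ⟨x1, hx1, hx1'⟩ := hsub b hb true h2' h1
    have hx1m := Finset.mem_filter.1 hx1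
    have hbb : M b b = true := by
      by_contra hcon
      have hlt : D.filter (fun x => M b x = true) ⊂ D.filter (fun x => M x1 x = true) := by
        rw [Finset.ssubset_iff_of_subset]
        · exact ⟨b, Finset.mem_filter.2 ⟨hb, by rw [hs]; exact hx1m.2⟩,
            fun hh => hcon (Finset.mem_filter.1 hh).2⟩
        · intro y hy
          exact Finset.mem_filter.2 ⟨(Finset.mem_filter.1 hy).1, hx1' y hy⟩
      have := Finset.card_lt_card hlt
      have := hmax x1 hx1m.1
      omega
    have h3 : (D.filter (fun x => M b x = false)).Nonempty := by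
      by_contra hcon
      rw [Finset.not_nonempty_iff_eq_empty] at hcon
      apply h1
      ext x
      constructor
      · intro hx; exact (Finset.mem_filter.1 hx).1
      · intro hx
        refine Finset.mem_filter.2 ⟨hx, ?_⟩
        by_contra hc
        have : x ∈ D.filter (fun x => M b x = false) := Finset.mem_filter.2 ⟨hx, by simpa using hc⟩
        rw [hcon] at this
        simp at this
    have h4 : D.filter (fun x => M b x = false) ≠ D := by
      intro hcon
      have : b ∈ D.filter (fun x => M b x = false) := by rw [hcon]; exact hb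
      have := (Finset.mem_filter.1 this).2
      rw [hbb] at this
      exact absurd this (by simp)
    obtain ⟨r, hr, hr'⟩ := hsub b hb false h3 h4
    have hrm := Finset.mem_filter.1 hr
    by_cases h5 : D.filter (fun x => M r x = true) = ∅
    · refine ⟨false, r, hrm.1, fun x hx => ?_⟩
      by_contra hcon
      have : x ∈ D.filter (fun x => M r x = true) := Finset.mem_filter.2 ⟨hx, by simpa using hcon⟩
      rw [h5] at this
      simp at this
    have hrr : M r r = false := hr' r hr
    have h6 : D.filter (fun x => M r x = true) ≠ D := by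
      intro hcon
      have : r ∈ D.filter (fun x => M r x = true) := by rw [hcon]; exact hrm.1
      have := (Finset.mem_filter.1 this).2
      rw [hrr] at this
      exact absurd this (by simp)
    obtain ⟨c, hc, hc'⟩ := hsub r hrm.1 true (Finset.nonempty_iff_ne_empty.2 h5) h6
    have hcm := Finset.mem_filter.1 hc
    have hbc : M b c = true := by
      by_contra hcon
      have : c ∈ D.filter (fun x => M b x = false) :=
        Finset.mem_filter.2 ⟨hcm.1, by simpa using hcon⟩
      have := hr' c this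
      rw [hcm.2] at this
      exact absurd this (by simp)
    have h7 : ¬ (D.filter (fun x => M b x = true) ⊆ D.filter (fun x => M c x = true)) := by
      intro hss
      have hlt : D.filter (fun x => M b x = true) ⊂ D.filter (fun x => M c x = true) := by
        rw [Finset.ssubset_iff_of_subset hss]
        refine ⟨r, Finset.mem_filter.2 ⟨hrm.1, by rw [hs]; exact hcm.2⟩, fun hh => ?_⟩
        have := (Finset.mem_filter.1 hh).2
        rw [hrm.2] at this
        exact absurd this (by simp)
      have := Finset.card_lt_card hlt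
      have := hmax c hcm.1
      omega
    rw [Finset.not_subset] at h7
    obtain ⟨a, ha, ha'⟩ := h7
    have ham := Finset.mem_filter.1 ha
    have hca : M c a = false := by
      by_contra hcon
      exact ha' (Finset.mem_filter.2 ⟨ham.1, by simpa using hcon⟩)
    have hra : M r a = false := by
      by_contra hcon
      have := hc' a (Finset.mem_filter.2 ⟨ham.1, by simpa using hcon⟩)
      rw [hca] at this
      exact absurd this (by simp)
    exact absurd (show P4 M a b c r from ⟨by rw [hs]; exact ham.2, hbc, by rw [hs]; exact hcm.2,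
      by rw [hs]; exact hca, by rw [hs]; exact hra, hrm.2⟩) (hN a ham.1 b hb c hcm.1 r hrm.1)

/-- A cell: pairs have midpoints inside; a vertex constant on an induced path is constant. -/
structure Cell (M : V → V → Bool) (C : Finset V) : Prop where
  symm : ∀ x y, M x y = M y x
  pairs : PairsOn M C
  min : ∀ y ∈ C, ∀ a ∈ C, ∀ b ∈ C, ∀ c ∈ C, ∀ d ∈ C, P4 M a b c d → ∀ t : Bool,
    M y a = t → M y b = t → M y c = t → M y d = t → ∀ x ∈ C, M y x = t

theorem Cell.co {M : V → V → Bool} {C : Finset V} (h : Cell M C) : Cell (Co M) C := by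
  refine ⟨fun x y => by simp [Co, h.symm x y], ?_, ?_⟩
  · intro u hu v hv t h1 h2 h3
    simp only [Co] at h1 h2 h3
    obtain ⟨g, hg, g1, g2, g3, g4⟩ := h.pairs u hu v hv (!t) (by rw [← h1]; simp)
      (by rw [← h2]; simp) (by
        have := congrArg (fun z => !z) h3
        simpa using this)
    refine ⟨g, hg, by simp [Co, g1], by simp [Co, g2], by simp [Co, g3], ?_⟩
    intro y hy hyy
    simp only [Co] at hyy ⊢
    rw [g4 y hy (by simpa using hyy)]
  · intro y hy a ha b hb c hc d hd hp t h1 h2 h3 h4 x hx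
    simp only [Co] at h1 h2 h3 h4 ⊢
    have := h.min y hy c hc a ha d hd b hb (P4.of_co h.symm hp) (!t)
      (by rw [← h3]; simp) (by rw [← h1]; simp) (by rw [← h4]; simp) (by rw [← h2]; simp) x hx
    rw [this]; simp

/-- (R1). -/
theorem Cell.r1 {M : V → V → Bool} {C : Finset V} (h : Cell M C) {y : V} (hy : y ∈ C) (t : Bool)
    (h1 : ∃ x ∈ C, M y x = t) (h2 : ∃ x ∈ C, M y x = !t) :
    ∃ r ∈ C, M y r = t ∧ ∀ x ∈ C, M y x = t → M r x = t := by
  have hN : NoP4 M (C.filter (fun x => M y x = t)) := by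
    intro a ha b hb c hc d hd hp
    rw [Finset.mem_filter] at ha hb hc hd
    obtain ⟨x, hx, hx'⟩ := h2
    have := h.min y hy a ha.1 b hb.1 c hc.1 d hd.1 hp t ha.2 hb.2 hc.2 hd.2 x hx
    rw [this] at hx'
    cases t <;> simp at hx'
  obtain ⟨x, hx, hx'⟩ := h1
  obtain ⟨r, hr, hr'⟩ := stepA h.symm h.pairs hy t (exists_root h.symm _
    ⟨x, Finset.mem_filter.2 ⟨hx, hx'⟩⟩ (pairs_filter h.symm h.pairs hy t) hN)
  exact ⟨r, (Finset.mem_filter.1 hr).1, (Finset.mem_filter.1 hr).2,
    fun x hx hx' => hr' x (Finset.mem_filter.2 ⟨hx, hx'⟩)⟩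

/-- Roots of three-condition subcells. -/
theorem Cell.r3 {M : V → V → Bool} {C : Finset V} (h : Cell M C) {p q r : V} (hp : p ∈ C)
    (hq : q ∈ C) (hr : r ∈ C) (tp tq tr : Bool)
    (h1 : ∃ x ∈ C, M p x = tp ∧ M q x = tq ∧ M r x = tr) (h2 : ∃ x ∈ C, M p x = !tp) :
    ∃ s : Bool, ∃ z ∈ C, (M p z = tp ∧ M q z = tq ∧ M r z = tr) ∧
      ∀ x ∈ C, M p x = tp → M q x = tq → M r x = tr → M z x = s := by
  have hpp : PairsOn M (C.filter (fun x => M p x = tp ∧ M q x = tq ∧ M r x = tr)) := by
    intro u hu v hv s h1 h2 h3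
    rw [Finset.mem_filter] at hu hv
    obtain ⟨g, hg, g1, g2, g3, g4⟩ := h.pairs u hu.1 v hv.1 s h1 h2 h3
    refine ⟨g, ?_, g1, g2, g3, fun x hx hxx => g4 x (Finset.mem_filter.1 hx).1 hxx⟩
    rw [Finset.mem_filter]
    refine ⟨hg, ?_, ?_, ?_⟩
    · have : M g p = M u p := g4 p hp (by rw [h.symm u p, h.symm v p, hu.2.1, hv.2.1])
      rw [h.symm p g, this, h.symm u p, hu.2.1]
    · have : M g q = M u q := g4 q hq (by rw [h.symm u q, h.symm v q, hu.2.2.1, hv.2.2.1])
      rw [h.symm q g, this, h.symm u q, hu.2.2.1]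
    · have : M g r = M u r := g4 r hr (by rw [h.symm u r, h.symm v r, hu.2.2.2, hv.2.2.2])
      rw [h.symm r g, this, h.symm u r, hu.2.2.2]
  have hN : NoP4 M (C.filter (fun x => M p x = tp ∧ M q x = tq ∧ M r x = tr)) := by
    intro a ha b hb c hc d hd hp4
    rw [Finset.mem_filter] at ha hb hc hd
    obtain ⟨x, hx, hx'⟩ := h2
    have := h.min p hp a ha.1 b hb.1 c hc.1 d hd.1 hp4 tp ha.2.1 hb.2.1 hc.2.1 hd.2.1 x hx
    rw [this] at hx'
    cases tp <;> simp at hx'
  obtain ⟨x, hx, hx'⟩ := h1
  obtain ⟨s, z, hz, hz'⟩ := exists_root h.symm _ ⟨x, Finset.mem_filter.2 ⟨hx, hx'⟩⟩ hpp hN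
  exact ⟨s, z, (Finset.mem_filter.1 hz).1, (Finset.mem_filter.1 hz).2,
    fun x hx h1 h2 h3 => hz' x (Finset.mem_filter.2 ⟨hx, h1, h2, h3⟩)⟩

/-- (i): the cell `D* = {x ∼ c, x ≁ a, b}` has a root of type `0`. -/
theorem Cell.i {M : V → V → Bool} {C : Finset V} (h : Cell M C) {a b c d : V} (ha : a ∈ C)
    (hb : b ∈ C) (hc : c ∈ C) (hd : d ∈ C) (hp : P4 M a b c d) :
    ∃ r ∈ C, (M c r = true ∧ M a r = false ∧ M b r = false) ∧
      ∀ x ∈ C, M c x = true → M a x = false → M b x = false → M r x = false := by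
  have hs := h.symm
  obtain ⟨s, r, hr, ⟨hr1, hr2, hr3⟩, hr4⟩ := h.r3 hc ha hb true false false
    ⟨d, hd, hp.2.2.1, hp.2.2.2.2.1, hp.2.2.2.2.2⟩
    ⟨a, ha, by rw [hs]; exact hp.2.2.2.1⟩
  cases s with
  | false => exact ⟨r, hr, ⟨hr1, hr2, hr3⟩, hr4⟩
  | true =>
    exfalso
    obtain ⟨p1, p2, -, p4, -, -⟩ := hp
    -- `(a, b, c, r)` is an induced path
    have hpr : P4 M a b c r := ⟨p1, p2, hr1, p4, hr2, hr3⟩
    have hrr : M r r = true := hr4 r hr hr1 hr2 hr3
    by_cases hz : ∃ z ∈ C, ∀ x ∈ C, M z x = false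
    · -- no all-ones vertex
      obtain ⟨z, hz, hz'⟩ := hz
      have hno : ∀ y ∈ C, (∀ x ∈ C, M y x = true) → False := by
        intro y hy hyy
        have h1 := hyy z hz
        rw [hs, hz' y hy] at h1
        simp at h1
      obtain ⟨s, q, hq, ⟨hq1, hq2, hq3⟩, hq4⟩ := h.r3 ha hc hr true true false
        ⟨b, hb, p1, by rw [hs]; exact p2, by rw [hs]; exact hr3⟩ ⟨c, hc, by simpa using p4⟩
      cases s with
      | false =>
        obtain ⟨w, hw, hw1, hw2⟩ := h.r1 hq true ⟨a, ha, by rw [hs]; exact hq1⟩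
          ⟨r, hr, by rw [hs]; simpa using hq3⟩
        have wa : M w a = true := hw2 a ha (by rw [hs]; exact hq1)
        have wc : M w c = true := hw2 c hc (by rw [hs]; exact hq2)
        have wq : M w q = true := by rw [hs]; exact hw1
        have wr : M w r = true := by
          by_contra hcon
          have : M q w = false := hq4 w hw (by rw [hs]; exact wa) (by rw [hs]; exact wc)
            (by rw [hs]; simpa using hcon)
          rw [hw1] at this
          simp at this
        exact hno w hw (h.min w hw a ha q hq c hc r hr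
          ⟨hq1, by rw [hs]; exact hq2, hr1, p4, hr2, by rw [hs]; exact hq3⟩ true wa wq wc wr)
      | true =>
        have hqq : M q q = true := hq4 q hq hq1 hq2 hq3
        obtain ⟨g, hg, g1, g2, g3, g4⟩ := h.pairs q hq r hr true hqq hrr
          (by rw [hs]; simpa using hq3)
        simp only [Bool.not_true] at g1 g2 g3
        have gc : M g c = true := by
          rw [g4 c hc (by rw [hs q c, hs r c, hq2, hr1]), hs, hq2]
        have ga : M g a = false := by
          by_contra hcon
          have : M q g = true := hq4 g hg (by rw [hs]; simpa using hcon) (by rw [hs]; exact gc)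
            (by rw [hs]; exact g3)
          rw [hs, g2] at this
          simp at this
        have gb : M g b = true := by
          by_contra hcon
          have : M r g = true := hr4 g hg (by rw [hs]; exact gc) (by rw [hs]; exact ga)
            (by rw [hs]; simpa using hcon)
          rw [hs, g3] at this
          simp at this
        have bq : M b q = true := by
          rw [hs]; exact hq4 b hb p1 (by rw [hs]; exact p2) (by rw [hs]; exact hr3)
        exact hno b hb (h.min b hb a ha q hq c hc g hg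
          ⟨hq1, by rw [hs]; exact hq2, by rw [hs]; exact gc, p4, by rw [hs]; exact ga,
            by rw [hs]; exact g2⟩ true (by rw [hs]; exact p1) bq p2 (by rw [hs]; exact gb))
    · -- no zero vertex
      obtain ⟨w, hw, hw1, hw2⟩ := h.r1 hr false ⟨a, ha, by rw [hs]; exact hr2⟩
        ⟨c, hc, by rw [hs]; simpa using hr1⟩
      have wa : M w a = false := hw2 a ha (by rw [hs]; exact hr2)
      have wb : M w b = false := hw2 b hb (by rw [hs]; exact hr3)
      have wr : M w r = false := by rw [hs]; exact hw1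
      have wc : M w c = false := by
        by_contra hcon
        have : M r w = true := hr4 w hw (by rw [hs]; simpa using hcon) (by rw [hs]; exact wa)
          (by rw [hs]; exact wb)
        rw [hw1] at this
        simp at this
      exact hz ⟨w, hw, h.min w hw a ha b hb c hc r hr hpr false wa wb wc wr⟩

/-- (i) for `C* = {x ∼ b, d, x ≁ a}`: a root of type `1`. -/
theorem Cell.i_co {M : V → V → Bool} {C : Finset V} (h : Cell M C) {a b c d : V} (ha : a ∈ C)
    (hb : b ∈ C) (hc : c ∈ C) (hd : d ∈ C) (hp : P4 M a b c d) :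
    ∃ r ∈ C, (M a r = false ∧ M b r = true ∧ M d r = true) ∧
      ∀ x ∈ C, M a x = false → M b x = true → M d x = true → M r x = true := by
  obtain ⟨r, hr, ⟨h1, h2, h3⟩, h4⟩ := h.co.i hb hd ha hc (P4.co h.symm hp)
  simp only [Co, Bool.not_eq_true', Bool.not_eq_false'] at h1 h2 h3 h4
  exact ⟨r, hr, ⟨h1, h2, h3⟩, h4⟩

/-- (ii). -/
theorem Cell.ii {M : V → V → Bool} {C : Finset V} (h : Cell M C) {a b c d r : V} (ha : a ∈ C)
    (hb : b ∈ C) (hc : c ∈ C) (hd : d ∈ C) (hp : P4 M a b c d) (hr : r ∈ C)
    (hr1 : M c r = true) (hr2 : M a r = false) (hr3 : M b r = false)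
    (hr4 : ∀ x ∈ C, M c x = true → M a x = false → M b x = false → M r x = false) :
    ∀ y ∈ C, M r y = true → M d y = true := by
  intro y hy hry
  by_contra hcon
  have hdy : M d y = false := by simpa using hcon
  have hs := h.symm
  obtain ⟨p1, p2, p3, p4, p5, p6⟩ := hp
  have hrd : M r d = false := hr4 d hd p3 p5 p6
  have hpr : P4 M a b c r := ⟨p1, p2, hr1, p4, hr2, hr3⟩
  cases ya : M y a <;> cases yb : M y b
  · cases yc : M y c
    · have := h.min y hy a ha b hb c hc d hd ⟨p1, p2, p3, p4, p5, p6⟩ false ya yb yc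
        (by rw [hs]; exact hdy) r hr
      rw [hs, hry] at this
      simp at this
    · have := hr4 y hy (by rw [hs]; exact yc) (by rw [hs]; exact ya) (by rw [hs]; exact yb)
      rw [hry] at this
      simp at this
  · have := h.min d hd a ha b hb y hy r hr
      ⟨p1, by rw [hs]; exact yb, by rw [hs]; exact hry, by rw [hs]; exact ya, hr2, hr3⟩ false
      (by rw [hs]; exact p5) (by rw [hs]; exact p6) hdy (by rw [hs]; exact hrd) c hc
    rw [hs, p3] at this
    simp at this
  · have := h.min d hd b hb a ha y hy r hr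
      ⟨by rw [hs]; exact p1, by rw [hs]; exact ya, by rw [hs]; exact hry, by rw [hs]; exact yb,
        hr3, hr2⟩ false
      (by rw [hs]; exact p6) (by rw [hs]; exact p5) hdy (by rw [hs]; exact hrd) c hc
    rw [hs, p3] at this
    simp at this
  · cases yc : M y c
    · -- the path `(d, c, r, y)`
      obtain ⟨q, hq, ⟨q1, q2, q3⟩, q4⟩ := h.i_co hd hc hr hy
        (show P4 M d c r y from ⟨by rw [hs]; exact p3, hr1, hry, by rw [hs]; exact hrd, hdy,
          by rw [hs]; exact yc⟩)
      have qr : M q r = true := q4 r hr (by rw [hs]; exact hrd) hr1 (by rw [hs]; exact hry)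
      have qb : M q b = true := q4 b hb (by rw [hs]; exact p6) (by rw [hs]; exact p2) yb
      have qc : M q c = true := by rw [hs]; exact q2
      have qa : M q a = false := by
        by_contra hcon
        have := h.min q hq a ha b hb c hc r hr hpr true (by simpa using hcon) qb qc qr d hd
        rw [hs, q1] at this
        simp at this
      have := h.min y hy a ha b hb q hq r hr
        ⟨p1, by rw [hs]; exact qb, qr, by rw [hs]; exact qa, hr2, hr3⟩ true ya yb q3
        (by rw [hs]; exact hry) c hc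
      rw [yc] at this
      simp at this
    · have := h.min y hy a ha b hb c hc r hr hpr true ya yb yc (by rw [hs]; exact hry) d hd
      rw [hs, hdy] at this
      simp at this

/-- The degree inside `C` (the loop counts once). -/
def deg (M : V → V → Bool) (C : Finset V) (y : V) : ℤ :=
  ((C.filter (fun x => M y x = true)).card : ℤ)

theorem deg_co (M : V → V → Bool) (C : Finset V) (y : V) :
    deg (Co M) C y = (C.card : ℤ) - deg M C y := by
  have h := Finset.card_filter_add_card_filter_not (s := C) (fun x => M y x = true)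
  have h2 : (C.filter (fun x => Co M y x = true)) = C.filter (fun x => ¬ M y x = true) := by
    apply Finset.filter_congr
    intro x _
    simp [Co]
  unfold deg
  rw [h2]
  omega

/-- `psi`-minimal induced path. -/
def Min (M : V → V → Bool) (C : Finset V) (a b c d : V) : Prop :=
  ∀ a' ∈ C, ∀ b' ∈ C, ∀ c' ∈ C, ∀ d' ∈ C, P4 M a' b' c' d' →
    deg M C a + deg M C d - deg M C b - deg M C c ≤
      deg M C a' + deg M C d' - deg M C b' - deg M C c'

theorem Min.rev {M : V → V → Bool} {C : Finset V} {a b c d : V} (h : Min M C a b c d) :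
    Min M C d c b a := by
  intro a' ha b' hb c' hc d' hd hp
  have := h a' ha b' hb c' hc d' hd hp
  omega

theorem Min.co {M : V → V → Bool} (hs : ∀ x y, M x y = M y x) {C : Finset V} {a b c d : V}
    (h : Min M C a b c d) : Min (Co M) C b d a c := by
  intro a' ha b' hb c' hc d' hd hp
  have := h c' hc a' ha d' hd b' hb (P4.of_co hs hp)
  simp only [deg_co]
  omega

theorem Cell.five {M : V → V → Bool} {C : Finset V} (h : Cell M C) {a b c d : V} (ha : a ∈ C)
    (hb : b ∈ C) (hc : c ∈ C) (hd : d ∈ C) (hp : P4 M a b c d) (hm : Min M C a b c d) :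
    ∀ x ∈ C, M c x = true → M a x = false → M b x = false → M d x = false := by
  obtain ⟨r, hr, ⟨r1, r2, r3⟩, r4⟩ := h.i ha hb hc hd hp
  have hii := h.ii ha hb hc hd hp hr r1 r2 r3 r4
  have hle : deg M C d ≤ deg M C r := by
    have := hm a ha b hb c hc r hr ⟨hp.1, hp.2.1, r1, hp.2.2.2.1, r2, r3⟩
    omega
  have hsub : C.filter (fun x => M r x = true) ⊆ C.filter (fun x => M d x = true) := by
    intro x hx
    rw [Finset.mem_filter] at hx ⊢
    exact ⟨hx.1, hii x hx.1 hx.2⟩
  have heq := Finset.eq_of_subset_of_card_le hsub (by unfold deg at hle; exact_mod_cast hle)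
  intro x hx h1 h2 h3
  by_contra hcon
  have : x ∈ C.filter (fun x => M d x = true) := Finset.mem_filter.2 ⟨hx, by simpa using hcon⟩
  rw [← heq] at this
  have h5 := (Finset.mem_filter.1 this).2
  rw [r4 x hx h1 h2 h3] at h5
  simp at h5

/-- In a cell with an induced path there is one with colours `0110` that no vertex of the cell
splits. -/
theorem Cell.good {M : V → V → Bool} {C : Finset V} (h : Cell M C)
    (hex : ∃ a ∈ C, ∃ b ∈ C, ∃ c ∈ C, ∃ d ∈ C, P4 M a b c d) :
    ∃ a ∈ C, ∃ b ∈ C, ∃ c ∈ C, ∃ d ∈ C, P4 M a b c d ∧ M a a = false ∧ M b b = true ∧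
      M c c = true ∧ M d d = false ∧ ∀ w ∈ C,
        ¬ (M w a = true ∧ M w b = true ∧ M w c = false ∧ M w d = false) ∧
        ¬ (M w a = false ∧ M w b = false ∧ M w c = true ∧ M w d = true) ∧
        ¬ (M w a = true ∧ M w b = false ∧ M w c = true ∧ M w d = false) ∧
        ¬ (M w a = false ∧ M w b = true ∧ M w c = false ∧ M w d = true) := by
  classical
  have hs := h.symm
  let T : Finset (V × V × V × V) :=
    (C ×ˢ C ×ˢ C ×ˢ C).filter (fun q => P4 M q.1 q.2.1 q.2.2.1 q.2.2.2)
  have hT : T.Nonempty := by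
    obtain ⟨a, ha, b, hb, c, hc, d, hd, hp⟩ := hex
    exact ⟨(a, b, c, d), Finset.mem_filter.2
      ⟨by simp [Finset.mem_product, ha, hb, hc, hd], hp⟩⟩
  obtain ⟨⟨a, b, c, d⟩, hq, hqm⟩ := Finset.exists_min_image T (fun q =>
    deg M C q.1 + deg M C q.2.2.2 - deg M C q.2.1 - deg M C q.2.2.1) hT
  obtain ⟨hq1, hp⟩ := Finset.mem_filter.1 hq
  simp only [Finset.mem_product] at hq1
  obtain ⟨ha, hb, hc, hd⟩ := hq1
  simp only at hp hqm
  have hm : Min M C a b c d := by
    intro a' ha' b' hb' c' hc' d' hd' hp'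
    exact hqm (a', b', c', d') (Finset.mem_filter.2
      ⟨by simp [Finset.mem_product, ha', hb', hc', hd'], hp'⟩)
  have F1 := h.five ha hb hc hd hp hm
  have F2 := h.five hd hc hb ha (hp.rev hs) hm.rev
  have F3 := h.co.five hb hd ha hc (hp.co hs) (hm.co hs)
  have F4 := h.co.five hc ha hd hb ((hp.rev hs).co hs) (hm.rev.co hs)
  simp only [Co, Bool.not_eq_true', Bool.not_eq_false'] at F3 F4
  obtain ⟨p1, p2, p3, p4, p5, p6⟩ := hp
  refine ⟨a, ha, b, hb, c, hc, d, hd, ⟨p1, p2, p3, p4, p5, p6⟩, ?_, ?_, ?_, ?_, ?_⟩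
  · exact F2 a ha (by rw [hs]; exact p1) (by rw [hs]; exact p5) (by rw [hs]; exact p4)
  · exact F4 b hb (by rw [hs]; exact p6) (by rw [hs]; exact p2) p1
  · exact F3 c hc p4 p2 (by rw [hs]; exact p3)
  · exact F1 d hd p3 p5 p6
  · intro w hw
    refine ⟨?_, ?_, ?_, ?_⟩
    · rintro ⟨w1, w2, w3, w4⟩
      have := F2 w hw (by rw [hs]; exact w2) (by rw [hs]; exact w4) (by rw [hs]; exact w3)
      rw [hs, w1] at this
      simp at this
    · rintro ⟨w1, w2, w3, w4⟩
      have := F1 w hw (by rw [hs]; exact w3) (by rw [hs]; exact w1) (by rw [hs]; exact w2)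
      rw [hs, w4] at this
      simp at this
    · rintro ⟨w1, w2, w3, w4⟩
      have := F4 w hw (by rw [hs]; exact w4) (by rw [hs]; exact w3) (by rw [hs]; exact w1)
      rw [hs, w2] at this
      simp at this
    · rintro ⟨w1, w2, w3, w4⟩
      have := F3 w hw (by rw [hs]; exact w1) (by rw [hs]; exact w2) (by rw [hs]; exact w4)
      rw [hs, w3] at this
      simp at this

end

/-- `w` lies in the smallest cell containing `a, b, c, d`. -/
def InX (M : V → V → Bool) (a b c d w : V) : Prop :=
  ∀ y, M a y = M b y → M a y = M c y → M a y = M d y → M w y = M a y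

/-- **Main theorem.** A symmetric `0/1` matrix with midpoints and an induced path on four vertices
has one with colours `0110` that is not split by any vertex of its smallest cell. -/
theorem exists_good [Fintype V] {M : V → V → Bool} (hs : ∀ x y, M x y = M y x)
    (hP : ∀ u v : V, ∀ t : Bool, M u u = t → M v v = t → M u v = (!t) →
      ∃ g, M g g = (!t) ∧ M g u = (!t) ∧ M g v = (!t) ∧ ∀ y, M u y = M v y → M g y = M u y)
    (hex : ∃ a b c d, P4 M a b c d) :
    ∃ a b c d, P4 M a b c d ∧ M a a = false ∧ M b b = true ∧ M c c = true ∧ M d d = false ∧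
      ∀ w, InX M a b c d w →
        ¬ (M w a = true ∧ M w b = true ∧ M w c = false ∧ M w d = false) ∧
        ¬ (M w a = false ∧ M w b = false ∧ M w c = true ∧ M w d = true) ∧
        ¬ (M w a = true ∧ M w b = false ∧ M w c = true ∧ M w d = false) ∧
        ¬ (M w a = false ∧ M w b = true ∧ M w c = false ∧ M w d = true) := by
  classical
  let XX : V × V × V × V → Finset V := fun q =>
    Finset.univ.filter (fun w => InX M q.1 q.2.1 q.2.2.1 q.2.2.2 w)
  let T : Finset (V × V × V × V) :=
    Finset.univ.filter (fun q => P4 M q.1 q.2.1 q.2.2.1 q.2.2.2)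
  have hT : T.Nonempty := by
    obtain ⟨a, b, c, d, hp⟩ := hex
    exact ⟨(a, b, c, d), Finset.mem_filter.2 ⟨Finset.mem_univ _, hp⟩⟩
  obtain ⟨⟨a, b, c, d⟩, hq, hqm⟩ := Finset.exists_min_image T (fun q => (XX q).card) hT
  have hp : P4 M a b c d := (Finset.mem_filter.1 hq).2
  set C := XX (a, b, c, d) with hC
  have memC : ∀ w, w ∈ C ↔ InX M a b c d w := by
    intro w; simp [hC, XX]
  have haC : a ∈ C := (memC a).2 (fun y _ _ _ => rfl)
  have hbC : b ∈ C := (memC b).2 (fun y h1 _ _ => h1.symm)
  have hcC : c ∈ C := (memC c).2 (fun y _ h2 _ => h2.symm)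
  have hdC : d ∈ C := (memC d).2 (fun y _ _ h3 => h3.symm)
  -- every induced path in `C` has the same smallest cell
  have key : ∀ a' ∈ C, ∀ b' ∈ C, ∀ c' ∈ C, ∀ d' ∈ C, P4 M a' b' c' d' →
      ∀ w, InX M a' b' c' d' w ↔ w ∈ C := by
    intro a' ha' b' hb' c' hc' d' hd' hp'
    have hsub : XX (a', b', c', d') ⊆ C := by
      intro w hw
      have hw' : InX M a' b' c' d' w := by simpa [XX] using hw
      rw [memC]
      intro y h1 h2 h3
      have e1 := (memC a').1 ha' y h1 h2 h3
      have e2 := (memC b').1 hb' y h1 h2 h3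
      have e3 := (memC c').1 hc' y h1 h2 h3
      have e4 := (memC d').1 hd' y h1 h2 h3
      rw [hw' y (by rw [e1, e2]) (by rw [e1, e3]) (by rw [e1, e4]), e1]
    have hcard : C.card ≤ (XX (a', b', c', d')).card :=
      hqm (a', b', c', d') (Finset.mem_filter.2 ⟨Finset.mem_univ _, hp'⟩)
    have heq := Finset.eq_of_subset_of_card_le hsub hcard
    intro w
    rw [← heq]
    simp [XX]
  have hcell : Cell M C := by
    refine ⟨hs, ?_, ?_⟩
    · intro u hu v hv t h1 h2 h3
      obtain ⟨g, g1, g2, g3, g4⟩ := hP u v t h1 h2 h3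
      refine ⟨g, ?_, g1, g2, g3, fun y _ hy => g4 y hy⟩
      rw [memC] at hu hv ⊢
      intro y e1 e2 e3
      have k1 := hu y e1 e2 e3
      have k2 := hv y e1 e2 e3
      rw [g4 y (by rw [k1, k2]), k1]
    · intro y hy a' ha' b' hb' c' hc' d' hd' hp' t h1 h2 h3 h4 x hx
      have := (key a' ha' b' hb' c' hc' d' hd' hp' x).2 hx y
        (by rw [hs a' y, hs b' y, h1, h2]) (by rw [hs a' y, hs c' y, h1, h3])
        (by rw [hs a' y, hs d' y, h1, h4])
      rw [hs y x, this, hs a' y, h1]
  obtain ⟨a', ha', b', hb', c', hc', d', hd', hp', k1, k2, k3, k4, k5⟩ :=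
    hcell.good ⟨a, haC, b, hbC, c, hcC, d, hdC, hp⟩
  exact ⟨a', b', c', d', hp', k1, k2, k3, k4, fun w hw => k5 w
    ((key a' ha' b' hb' c' hc' d' hd' hp' w).1 hw)⟩

end Pool.Agent.H10.P3
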