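import Mathlib
import Pool.Agent.H10.P3.Core
import Pool.Agent.H17.P3.Defs

set_option autoImplicit false

namespace Pool.Agent.H10.P3

theorem zmod2_cases (z : ZMod 2) : z = 0 ∨ z = 1 := by
  revert z; decide

/-- **The matrix statement.** -/
theorem p3 : Pool.Agent.H17.P3.P3 := by
  classical
  intro X hX M hs hPairs hSplit a b c d hp
  have : Fintype X := Fintype.ofFinite X
  let B : X → X → Bool := fun x y => decide (M x y = 1)
  have hBs : ∀ x y, B x y = B y x := by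
    intro x y; simp only [B, hs x y]
  have b1 : ∀ x y, B x y = true ↔ M x y = 1 := by intro x y; simp [B]
  have b0 : ∀ x y, B x y = false ↔ M x y = 0 := by
    intro x y
    simp only [B, decide_eq_false_iff_not]
    rcases zmod2_cases (M x y) with h | h <;> simp [h]
  have beq : ∀ x y x' y', B x y = B x' y' ↔ M x y = M x' y' := by
    intro x y x' y'
    simp only [B]
    rcases zmod2_cases (M x y) with h | h <;> rcases zmod2_cases (M x' y') with h' | h' <;>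
      simp [h, h']
  have bne : ∀ x y x' y', B x y = (!(B x' y')) ↔ M x y ≠ M x' y' := by
    intro x y x' y'
    simp only [B]
    rcases zmod2_cases (M x y) with h | h <;> rcases zmod2_cases (M x' y') with h' | h' <;>
      simp [h, h']
  have hP : ∀ u v : X, ∀ t : Bool, B u u = t → B v v = t → B u v = (!t) →
      ∃ g, B g g = (!t) ∧ B g u = (!t) ∧ B g v = (!t) ∧ ∀ y, B u y = B v y → B g y = B u y := by
    intro u v t h1 h2 h3
    obtain ⟨g, g1, g2, g3, g4⟩ := hPairs u v ((beq _ _ _ _).1 (by rw [h1, h2]))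
      ((bne _ _ _ _).1 (by rw [h1, h3]))
    have e1 : B g g = !t := by rw [← h1]; exact (bne _ _ _ _).2 g1
    refine ⟨g, e1, ?_, ?_, fun y hy => (beq _ _ _ _).2 (g4 y ((beq _ _ _ _).1 hy))⟩
    · rw [← e1]; exact (beq _ _ _ _).2 g2
    · rw [← e1]; exact (beq _ _ _ _).2 g3
  obtain ⟨a, b, c, d, ⟨p1, p2, p3, p4, p5, p6⟩, ha, hb, hc, hd, hw⟩ := exists_good hBs hP
    ⟨a, b, c, d, (b1 _ _).2 hp.ab, (b1 _ _).2 hp.bc, (b1 _ _).2 hp.cd, (b0 _ _).2 hp.ac,
      (b0 _ _).2 hp.ad, (b0 _ _).2 hp.bd⟩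
  obtain ⟨g, ⟨hg1, hg2⟩, hg3⟩ := hSplit a b c d
    ⟨(b1 _ _).1 p1, (b1 _ _).1 p2, (b1 _ _).1 p3, (b0 _ _).1 p4, (b0 _ _).1 p5, (b0 _ _).1 p6⟩
    ((b0 _ _).1 ha) ((b1 _ _).1 hb) ((b1 _ _).1 hc) ((b0 _ _).1 hd)
  obtain ⟨w1, w2, w3, w4⟩ := hw g (fun y h1 h2 h3 => (beq _ _ _ _).2
    (hg3 y ((beq _ _ _ _).1 h1) ((beq _ _ _ _).1 h2) ((beq _ _ _ _).1 h3)))
  have k1 : B g a = !(B g d) := (bne _ _ _ _).2 hg1
  have k2 : B g b = !(B g c) := (bne _ _ _ _).2 hg2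
  rw [k1, k2] at w1 w2 w3 w4
  revert w1 w2 w3 w4
  cases B g d <;> cases B g c <;> simp

end Pool.Agent.H10.P3
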